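import Mathlib

/-!
# Statements for the project ET (MP_12a1af_nt, Erdős–Turán)

Goal: every asymptotic additive basis `A` of order 2 has `r_A(n) ≥ 8` (ordered representations) for
infinitely many `n`, with a uniform quantitative form.
Definitions and exact statements of the parts.  `B` is always a finite set of positive integers.
-/

set_option autoImplicit false

open Finset MeasureTheory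

namespace Pool.Agent.W247.ET

/-- number of ordered representations of `n` as a sum of two elements of the finite set `B` -/
def rep (B : Finset ℕ) (n : ℕ) : ℕ := ((B ×ˢ B).filter (fun p => p.1 + p.2 = n)).card

/-- window average of a function -/
noncomputable def Mw (r : ℕ → ℝ) (J n : ℕ) : ℝ := (∑ i ∈ range J, r (n + i)) / J

/-- window average of `rep B` -/
noncomputable def M (B : Finset ℕ) (J n : ℕ) : ℝ := Mw (fun k => (rep B k : ℝ)) J n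

noncomputable def P2 (u v : ℝ) : ℝ :=
  4 * (u + v) * (u * v) - (u + v) ^ 2 - 4 * (u * v) + 2 * (u + v) + 13 / 4

noncomputable def P1 (u v : ℝ) : ℝ := (u - v) * (4 * (u * v) - (u + v) + 3)

/-- the `j`-th Fourier coefficient of the field with polynomial `P` at height `y` -/
noncomputable def G (P : ℝ → ℝ → ℝ) (B : Finset ℕ) (y : ℝ) (j : ℤ) : ℝ :=
  ∑ p ∈ (B ×ˢ B).filter (fun p : ℕ × ℕ => (p.1 : ℤ) - p.2 = j),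
    P (p.1 * y) (p.2 * y) * Real.exp (-(((p.1 : ℝ) + p.2) * y))

/-- quadruples `((a, a'), (b, b'))` with `a + b' + i' = a' + b + i` -/
def quads (B : Finset ℕ) (i i' : ℕ) : Finset ((ℕ × ℕ) × (ℕ × ℕ)) :=
  ((B ×ˢ B) ×ˢ (B ×ˢ B)).filter (fun q => q.1.1 + q.2.2 + i' = q.1.2 + q.2.1 + i)

/-- the integrand belonging to one quadruple -/
noncomputable def kf (P : ℝ → ℝ → ℝ) (a x b z y : ℝ) : ℝ :=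
  P (a * y) (x * y) * P (b * y) (z * y) * Real.exp (-((a + x + b + z) * y))

noncomputable def SS (P : ℝ → ℝ → ℝ) (B : Finset ℕ) (i i' : ℕ) (y : ℝ) : ℝ :=
  ∑ q ∈ quads B i i', kf P q.1.1 q.1.2 q.2.1 q.2.2 y

noncomputable def KK (P : ℝ → ℝ → ℝ) (a x b z : ℝ) : ℝ :=
  ∫ y in Set.Ioi (0 : ℝ), kf P a x b z y

noncomputable def QS (P : ℝ → ℝ → ℝ) (B : Finset ℕ) (i i' : ℕ) : ℝ :=
  ∑ q ∈ quads B i i', KK P q.1.1 q.1.2 q.2.1 q.2.2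

noncomputable def LK (B : Finset ℕ) (J : ℕ) : ℝ :=
  QS P1 B 0 0 + QS P2 B 0 0 -
    (∑ i ∈ range J, ∑ i' ∈ range J, (QS P1 B i i' + QS P2 B i i')) / (J : ℝ) ^ 2

/-- `V(B)` -/
noncomputable def VV (B : Finset ℕ) : ℝ :=
  ∑ p ∈ B ×ˢ B, ((p.1 : ℝ) * p.2 / ((p.1 : ℝ) + p.2) ^ 3 - 1 / (8 * ((p.1 : ℝ) + p.2)))

/-- the kernel of `∫ y (∑ r(n) (1 - 2 n y) exp (-2 n y))² dy` -/
noncomputable def kap (n m : ℕ) : ℝ :=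
  3 / 2 * ((n : ℝ) * m) / ((n : ℝ) + m) ^ 4 - 1 / (4 * ((n : ℝ) + m) ^ 2)

/-- the error polynomial of the kernel -/
noncomputable def Dp (n m p q : ℝ) : ℝ :=
  -2880 * (n - m) ^ 2 * p * q +
    (n - m) * (p * (9 * n ^ 3 - 57 * n ^ 2 * m - 381 * n * m ^ 2 - 315 * m ^ 3) +
      q * (315 * n ^ 3 + 381 * n ^ 2 * m + 57 * n * m ^ 2 - 9 * m ^ 3)) -
    (1 / 8) * (73 * n ^ 6 + 194 * n ^ 5 * m - 73 * n ^ 4 * m ^ 2 - 388 * n ^ 3 * m ^ 3 -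
      73 * n ^ 2 * m ^ 4 + 194 * n * m ^ 5 + 73 * m ^ 6)

/-! ## The parts -/

/-- POS -/
def POS_stmt : Prop := ∀ (L J : ℕ) (g : ℤ → ℝ) (T : ℤ), 1 ≤ J →
  (∀ j : ℤ, (L : ℤ) < |j| → g j = 0) → (L : ℤ) + J ≤ T →
  0 ≤ ∑ j ∈ Icc (-T) T, g j ^ 2 -
      (∑ j ∈ Icc (-T) T, (∑ i ∈ range J, g (j + i)) ^ 2) / (J : ℝ) ^ 2 ∧
  g 0 ^ 2 - 2 / √(J : ℝ) * ∑ j ∈ Icc (-T) T, g j ^ 2 ≤
    ∑ j ∈ Icc (-T) T, g j ^ 2 -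
      (∑ j ∈ Icc (-T) T, (∑ i ∈ range J, g (j + i)) ^ 2) / (J : ℝ) ^ 2

/-- QUAD -/
def QUAD_stmt : Prop := ∀ (P : ℝ → ℝ → ℝ) (B : Finset ℕ) (N J : ℕ) (T : ℤ) (y : ℝ) (i i' : ℕ),
  B ⊆ Icc 1 N → i ≤ J → i' ≤ J → (N : ℤ) + J ≤ T →
  ∑ j ∈ Icc (-T) T, G P B y (j + i) * G P B y (j + i') = SS P B i i' y

/-- KINT -/
def KINT_stmt : Prop := ∀ (P : ℝ → ℝ → ℝ), (P = P1 ∨ P = P2) → ∀ a x b z : ℝ,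
  0 < a → 0 < x → 0 < b → 0 < z → IntegrableOn (kf P a x b z) (Set.Ioi 0)

/-- ASM -/
def ASM_stmt : Prop := ∀ (B : Finset ℕ) (N J : ℕ), B ⊆ Icc 1 N → 1 ≤ J →
  IntegrableOn (fun y => G P2 B y 0 ^ 2) (Set.Ioi 0) ∧
  (∫ y in Set.Ioi (0 : ℝ), G P2 B y 0 ^ 2) - 2 / √(J : ℝ) * QS P2 B 0 0 ≤ LK B J

/-- LOW -/
def LOW_stmt : Prop := ∀ (B : Finset ℕ) (N : ℕ), B ⊆ Icc 1 N →
  1369 / 128 * ∑ p ∈ B ×ˢ B, 1 / ((p.1 : ℝ) + p.2) - 185 / 8 * VV B ≤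
    ∫ y in Set.Ioi (0 : ℝ), G P2 B y 0 ^ 2

/-- KER -/
def KER_stmt : Prop := ∀ a x b z : ℝ, 0 < a → 0 < x → 0 < b → 0 < z →
  (KK P1 a x b z + KK P2 a x b z) + (KK P1 z x b a + KK P2 z x b a) +
      (KK P1 a b x z + KK P2 a b x z) + (KK P1 z b x a + KK P2 z b x a) =
    4 * (315 / 16 / (a + z + (x + b)) +
      Dp (a + z) (x + b) (a * z) (x * b) / (a + z + (x + b)) ^ 7)

/-- ENE -/
def ENE_stmt : Prop := ∃ C : ℝ, 0 < C ∧ ∀ (B : Finset ℕ) (N : ℕ), B ⊆ Icc 1 N →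
  QS P2 B 0 0 ≤ C * ∑ n ∈ Icc 1 (2 * N), (rep B n : ℝ) ^ 2 / n

/-- UPX -/
def UPX_stmt : Prop := ∀ K J : ℕ, 1 ≤ J → ∃ C : ℝ, ∀ (B : Finset ℕ) (N : ℕ), B ⊆ Icc 1 N →
  (∀ n, rep B n ≤ K) →
  LK B J ≤ 315 / 32 * ∑ n ∈ Icc 1 (2 * N), ((rep B n : ℝ) ^ 2 - M B J n ^ 2) / n + C

/-- RS: sums of the kernel over quadruples -/
def RS_stmt : Prop :=
  (∀ (B : Finset ℕ) (N : ℕ), B ⊆ Icc 1 N →
    QS P1 B 0 0 + QS P2 B 0 0 = 315 / 32 * ∑ n ∈ Icc 1 (2 * N), (rep B n : ℝ) ^ 2 / n) ∧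
  ∀ K J : ℕ, ∃ C : ℝ, ∀ (B : Finset ℕ) (N i i' : ℕ), B ⊆ Icc 1 N → (∀ n, rep B n ≤ K) →
    i < J → i' < J →
    315 / 16 * ∑ k ∈ Icc 1 (2 * N), (rep B (k + i) : ℝ) * rep B (k + i') /
      (2 * (k : ℝ) + i + i') - C ≤ QS P1 B i i' + QS P2 B i i'

/-- UPY -/
def UPY_stmt : Prop := ∀ K J : ℕ, 1 ≤ J → ∃ C : ℝ, ∀ (r : ℕ → ℝ) (L : ℕ),
  (∀ n, 0 ≤ r n ∧ r n ≤ K) →
  1 / 2 * ∑ k ∈ Icc 1 L, Mw r J k ^ 2 / k - C ≤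
    (∑ i ∈ range J, ∑ i' ∈ range J, ∑ k ∈ Icc 1 L, r (k + i) * r (k + i') /
      (2 * (k : ℝ) + i + i')) / (J : ℝ) ^ 2

/-- `D(y)` -/
noncomputable def Dd (B : Finset ℕ) (y : ℝ) : ℝ :=
  ∑ a ∈ B, (1 / 2 - 2 * (a : ℝ) * y) * Real.exp (-(2 * (a : ℝ) * y))

/-- `H(y)` -/
noncomputable def Hh (B : Finset ℕ) (N : ℕ) (y : ℝ) : ℝ :=
  ∑ n ∈ Icc 1 (2 * N), (rep B n : ℝ) * ((1 - 2 * (n : ℝ) * y) * Real.exp (-(2 * (n : ℝ) * y)))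

/-- VA1 -/
def VA1_stmt : Prop := ∀ (B : Finset ℕ) (N : ℕ), B ⊆ Icc 1 N →
  IntegrableOn (fun y => Dd B y ^ 2) (Set.Ioi 0) ∧
  ∫ y in Set.Ioi (0 : ℝ), Dd B y ^ 2 = VV B ∧
  IntegrableOn (fun y => y * Hh B N y ^ 2) (Set.Ioi 0) ∧
  ∫ y in Set.Ioi (0 : ℝ), y * Hh B N y ^ 2 =
    ∑ n ∈ Icc 1 (2 * N), ∑ m ∈ Icc 1 (2 * N), (rep B n : ℝ) * rep B m * kap n m

/-- VA2 -/
def VA2_stmt : Prop := ∀ (K : ℕ) (B : Finset ℕ) (N : ℕ), B ⊆ Icc 1 N → (∀ n, rep B n ≤ K) →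
  ∀ y : ℝ, 0 < y →
  Dd B y ^ 2 ≤ K * ∑ n ∈ Icc 1 (2 * N), Real.exp (-((n : ℝ) * y)) ∧
  Dd B y ^ 2 ≤ K * N / 2 ∧
  (2 / (N : ℝ) ≤ y → y ≤ 1 / 100 →
    Dd B y ^ 2 ≤ 3 / 5 * (y * Hh B N y ^ 2) +
      20 * K * ∑ n ∈ (Icc 1 N).filter (fun n => rep B n = 0), Real.exp (-(2 * (n : ℝ) * y)))

/-- VA -/
def VA_stmt : Prop := ∀ K : ℕ, ∃ C : ℝ, ∀ (B : Finset ℕ) (N : ℕ), B ⊆ Icc 1 N →
  (∀ n, rep B n ≤ K) →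
  VV B ≤ 3 / 5 * ∑ n ∈ Icc 1 (2 * N), ∑ m ∈ Icc 1 (2 * N), (rep B n : ℝ) * rep B m * kap n m +
    10 * K * ∑ n ∈ (Icc 1 N).filter (fun n => rep B n = 0), 1 / (n : ℝ) + C

/-- VB -/
def VB_stmt : Prop := ∀ K J : ℕ, 1 ≤ J → ∃ C : ℝ, ∀ (r : ℕ → ℝ) (L : ℕ),
  (∀ n, 0 ≤ r n ∧ r n ≤ K) → (∀ n, L < n → r n = 0) →
  ∑ n ∈ Icc 1 L, ∑ m ∈ Icc 1 L, r n * r m * kap n m ≤
    ∑ n ∈ Icc 1 L, ∑ m ∈ Icc 1 L, Mw r J n * Mw r J m * kap n m + C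

/-- VC -/
def VC_stmt : Prop := ∀ K : ℕ, ∃ C : ℝ, ∀ (u : ℕ → ℝ) (L : ℕ), (∀ n, 0 ≤ u n ∧ u n ≤ K) →
  ∑ n ∈ Icc 1 L, ∑ m ∈ Icc 1 L, u n * u m * kap n m ≤
    ∑ n ∈ Icc 1 L, ∑ m ∈ Icc 1 L, (u n - 7 / 2) * (u m - 7 / 2) * kap n m + C

/-- VD -/
def VD_stmt : Prop := ∀ K : ℝ, ∃ C : ℝ, ∀ (d : ℕ → ℝ) (L : ℕ), (∀ n, |d n| ≤ K) →
  ∑ n ∈ Icc 1 L, ∑ m ∈ Icc 1 L, d n * d m * kap n m ≤
    1 / 2 * ∑ n ∈ Icc 1 L, d n ^ 2 / n + C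

/-- MS -/
def MS_stmt : Prop := ∀ K J : ℕ, 1 ≤ J → ∃ C : ℝ, ∀ (r : ℕ → ℝ) (L : ℕ),
  (∀ n, 0 ≤ r n ∧ r n ≤ K) → (∀ n, L < n → r n = 0) →
  |∑ n ∈ Icc 1 L, Mw r J n / n - ∑ n ∈ Icc 1 L, r n / n| ≤ C

/-- SPA -/
def SPA_stmt : Prop := ∀ K : ℕ, ∃ C : ℝ, ∀ B : Finset ℕ, 0 ∉ B → (∀ n, rep B n ≤ K) →
  ∑ a ∈ B, 1 / (a : ℝ) ≤ C

/-- the number of ordered representations for an arbitrary set -/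
noncomputable def r (A : Set ℕ) (n : ℕ) : ℕ := {p : ℕ × ℕ | p.1 ∈ A ∧ p.2 ∈ A ∧ p.1 + p.2 = n}.ncard

open Classical in
/-- CUT: the truncated set -/
noncomputable def cut (A : Set ℕ) (N : ℕ) : Finset ℕ := (Icc 1 N).filter (fun a => a ∈ A)

open Classical in
/-- CUT -/
def CUT_stmt : Prop := ∀ K : ℕ, ∃ C : ℝ, ∀ (A : Set ℕ), (∀ n, r A n ≤ K) → ∀ N : ℕ,
  (∀ n, rep (cut A N) n ≤ K) ∧
  (∑ n ∈ Icc 1 (2 * N), ((rep (cut A N) n : ℝ) ^ 2 - (8 * rep (cut A N) n - 12)) / n ≤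
    C * ∑ n ∈ (Icc 1 N).filter (fun n => r A n = 0 ∨ 8 ≤ r A n), 1 / (n : ℝ) + C) ∧
  ∑ n ∈ (Icc 1 N).filter (fun n => rep (cut A N) n = 0), 1 / (n : ℝ) ≤
    ∑ n ∈ (Icc 1 N).filter (fun n => r A n = 0 ∨ 8 ≤ r A n), 1 / (n : ℝ) + C

open Classical in
/-- the main theorem, quantitative form -/
def Main_stmt : Prop := ∀ K : ℕ, ∃ δ : ℝ, 0 < δ ∧ ∃ C : ℝ, ∀ A : Set ℕ, (∀ n, r A n ≤ K) →
  ∀ N : ℕ, 1 ≤ N → δ * Real.log N - C ≤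
    ∑ n ∈ (Icc 1 N).filter (fun n => r A n = 0 ∨ 8 ≤ r A n), 1 / (n : ℝ)

/-- the corollary for asymptotic bases -/
def Basis_stmt : Prop := ∀ A : Set ℕ, (∃ n₀, ∀ n ≥ n₀, 1 ≤ r A n) → ∀ n₁, ∃ n ≥ n₁, 8 ≤ r A n

end Pool.Agent.W247.ET
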