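import Pool.Agent.H38.ET8.W247.ET.Fin
import Pool.Agent.H38.ET8.W19.ET.POS
import Pool.Agent.H38.ET8.W641.ET.QUAD
import Pool.Agent.H38.ET8.W723.ET.KINT
import Pool.Agent.H38.ET8.W119.ET.ASM
import Pool.Agent.H38.ET8.W930.ET.LOW
import Pool.Agent.H38.ET8.W975.ET.KER
import Pool.Agent.H38.ET8.W73.ET.ENE
import Pool.Agent.H38.ET8.W654.ET.RS
import Pool.Agent.H38.ET8.W591.ET.UPY
import Pool.Agent.H38.ET8.W356.ET.UPX
import Pool.Agent.H38.ET8.W762.ET.VA1
import Pool.Agent.H38.ET8.W369.ET.VA2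
import Pool.Agent.H38.ET8.W418.ET.VA
import Pool.Agent.H38.ET8.W451.ET.VB
import Pool.Agent.H38.ET8.W369.ET.VC
import Pool.Agent.H38.ET8.W253.ET.VD
import Pool.Agent.H38.ET8.W381.ET.MS
import Pool.Agent.H38.ET8.W55.ET.SPA
import Pool.Agent.H38.ET8.W962.ET.CUT

set_option autoImplicit false

/-!
# Assembly: every asymptotic basis of order two has at least eight representations infinitely often

All parts of the proof of `Main_stmt`.
-/

namespace Pool.Agent.W247.ET

theorem main : Main_stmt :=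
  main_of_parts
    (Pool.Agent.W119.ET.main Pool.Agent.W19.ET.main Pool.Agent.W641.ET.main
      Pool.Agent.W723.ET.main)
    Pool.Agent.W930.ET.LOW.main
    Pool.Agent.W73.ET.ENE.main
    (Pool.Agent.W356.ET.UPX.main
      (Pool.Agent.W654.ET.RS.main Pool.Agent.W975.ET.main) Pool.Agent.W591.ET.UPY.main)
    (Pool.Agent.W418.ET.VA.main Pool.Agent.W762.ET.VA1.main Pool.Agent.W369.ET.main)
    Pool.Agent.W451.ET.VB.main
    Pool.Agent.W369.ET.vc_main
    Pool.Agent.W253.ET.VD.main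
    Pool.Agent.W381.ET.MS.main
    (Pool.Agent.W962.ET.main Pool.Agent.W55.ET.main)

end Pool.Agent.W247.ET
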