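import Pool.Agent.H38.ET8.W247.ET.Stm

/-!
# Assembly of the project ET: the main theorem from its parts
-/

set_option autoImplicit false

open Finset MeasureTheory

namespace Pool.Agent.W247.ET

/-- grouping a sum over pairs by the value of the sum -/
theorem sum_pairs (B : Finset ℕ) (N : ℕ) (hB : B ⊆ Icc 1 N) (f : ℕ → ℝ) :
    ∑ p ∈ B ×ˢ B, f (p.1 + p.2) = ∑ n ∈ Icc 1 (2 * N), (rep B n : ℝ) * f n := by
  have hmap : ∀ p ∈ B ×ˢ B, p.1 + p.2 ∈ Icc 1 (2 * N) := by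
    intro p hp
    rw [mem_product] at hp
    have h1 := mem_Icc.1 (hB hp.1)
    have h2 := mem_Icc.1 (hB hp.2)
    rw [mem_Icc]
    omega
  rw [← sum_fiberwise_of_maps_to hmap]
  refine sum_congr rfl fun n _ => ?_
  rw [rep, ← nsmul_eq_mul, ← sum_const]
  refine sum_congr rfl fun p hp => ?_
  rw [(mem_filter.1 hp).2]

theorem Mw_nonneg {r : ℕ → ℝ} {K : ℝ} (h : ∀ n, 0 ≤ r n ∧ r n ≤ K) (J n : ℕ) (hJ : 1 ≤ J) :
    0 ≤ Mw r J n ∧ Mw r J n ≤ K := by
  have hJ' : (0 : ℝ) < J := by exact_mod_cast hJ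
  unfold Mw
  constructor
  · exact div_nonneg (sum_nonneg fun i _ => (h _).1) hJ'.le
  · rw [div_le_iff₀ hJ']
    calc ∑ i ∈ range J, r (n + i) ≤ ∑ _i ∈ range J, K := sum_le_sum fun i _ => (h _).2
      _ = K * J := by rw [sum_const, card_range, nsmul_eq_mul, mul_comm]

theorem main_of_parts (hASM : ASM_stmt) (hLOW : LOW_stmt) (hENE : ENE_stmt) (hUPX : UPX_stmt)
    (hVA : VA_stmt) (hVB : VB_stmt) (hVC : VC_stmt) (hVD : VD_stmt) (hMS : MS_stmt)
    (hCUT : CUT_stmt) : Main_stmt := by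
  classical
  intro K
  obtain ⟨C0, hC0, hE⟩ := hENE
  -- choice of J
  obtain ⟨J, hJ⟩ := exists_nat_ge ((256 * C0 * (K : ℝ) ^ 2 / 28) ^ 2 + 1)
  have hJ1 : 1 ≤ J := by
    have : (1 : ℝ) ≤ J := by nlinarith [sq_nonneg (256 * C0 * (K : ℝ) ^ 2 / 28)]
    exact_mod_cast this
  have hJ0 : (0 : ℝ) < J := by exact_mod_cast hJ1
  have hsJ : 256 * C0 * (K : ℝ) ^ 2 / 28 ≤ √(J : ℝ) := by
    apply Real.le_sqrt_of_sq_le
    linarith
  have hsJ0 : 0 < √(J : ℝ) := Real.sqrt_pos.2 hJ0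
  have hsmall : 2 / √(J : ℝ) * (C0 * (K : ℝ) ^ 2) ≤ 28 / 128 := by
    rw [div_mul_eq_mul_div, div_le_iff₀ hsJ0]
    nlinarith
  obtain ⟨CU, hU⟩ := hUPX K J hJ1
  obtain ⟨CA, hA⟩ := hVA K
  obtain ⟨CB, hB⟩ := hVB K J hJ1
  obtain ⟨CC, hC⟩ := hVC K
  obtain ⟨CD, hD⟩ := hVD (K + 7 / 2)
  obtain ⟨CM, hM⟩ := hMS K J hJ1
  obtain ⟨CT, hT⟩ := hCUT K
  set c2 : ℝ := 1260 * |CT| + 29600 * K + 1 with hc2
  have hc2pos : 0 < c2 := by positivity
  set c1 : ℝ := 1776 * (|CD| + |CC| + |CB|) + 29600 * K * |CT| + 2960 * |CA| + 128 * |CU| +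
    1260 * |CT| + 8711 * |CM| with hc1
  refine ⟨30 / c2, by positivity, c1 / c2, ?_⟩
  intro A hAK N hN
  obtain ⟨hrepK, hT2, hT3⟩ := hT A hAK N
  set B := cut A N with hBdef
  have hBsub : B ⊆ Icc 1 N := by
    intro a ha
    exact (mem_filter.1 ha).1
  set S : ℝ := ∑ n ∈ (Icc 1 N).filter (fun n => r A n = 0 ∨ 8 ≤ r A n), 1 / (n : ℝ) with hS
  set R : ℕ → ℝ := fun n => (rep B n : ℝ) with hR
  have hRK : ∀ n, 0 ≤ R n ∧ R n ≤ K := fun n => ⟨by positivity, by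
    show (rep B n : ℝ) ≤ K
    exact_mod_cast hrepK n⟩
  have hR0 : ∀ n, 2 * N < n → R n = 0 := by
    intro n hn
    show ((rep B n : ℕ) : ℝ) = 0
    have : rep B n = 0 := by
      unfold rep
      rw [card_eq_zero, filter_eq_empty_iff]
      intro p hp
      rw [mem_product] at hp
      have h1 := mem_Icc.1 (hBsub hp.1)
      have h2 := mem_Icc.1 (hBsub hp.2)
      omega
    rw [this]; simp
  set W : ℕ → ℝ := fun n => Mw R J n with hW
  have hWK : ∀ n, 0 ≤ W n ∧ W n ≤ K := fun n => Mw_nonneg hRK J n hJ1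
  set L := 2 * N with hL
  have hpos : ∀ n ∈ Icc 1 L, (0 : ℝ) < n := fun n hn => by
    exact_mod_cast (mem_Icc.1 hn).1
  set s1 : ℝ := ∑ n ∈ Icc 1 L, R n ^ 2 / n with hs1
  set s2 : ℝ := ∑ n ∈ Icc 1 L, W n ^ 2 / n with hs2
  set s3 : ℝ := ∑ n ∈ Icc 1 L, R n / n with hs3
  set s4 : ℝ := ∑ n ∈ Icc 1 L, W n / n with hs4
  set s0 : ℝ := ∑ n ∈ Icc 1 L, 1 / (n : ℝ) with hs0
  have hs0nn : 0 ≤ s0 := sum_nonneg fun n _ => by positivity
  -- T
  have hTeq : ∑ n ∈ Icc 1 L, (W n - 7 / 2) ^ 2 / n = s2 - 7 * s4 + 49 / 4 * s0 := by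
    rw [hs2, hs4, hs0, mul_sum, mul_sum, ← sum_sub_distrib, ← sum_add_distrib]
    refine sum_congr rfl fun n hn => ?_
    have := hpos n hn
    field_simp
    ring
  -- (1), (2)
  obtain ⟨-, h1⟩ := hASM B N J hBsub hJ1
  have h2 := hLOW B N hBsub
  have h2' : ∑ p ∈ B ×ˢ B, 1 / ((p.1 : ℝ) + p.2) = s3 := by
    have := sum_pairs B N hBsub (fun n => 1 / (n : ℝ))
    push_cast at this
    rw [this, hs3]
    refine sum_congr rfl fun n _ => ?_
    simp only [hR]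
    ring
  rw [h2'] at h2
  -- (3)
  have h3 : QS P2 B 0 0 ≤ C0 * (K ^ 2 * s0) := by
    refine (hE B N hBsub).trans ?_
    refine mul_le_mul_of_nonneg_left ?_ hC0.le
    rw [hs0, mul_sum]
    refine sum_le_sum fun n hn => ?_
    have hn' := hpos n hn
    have h5 := hRK n
    have h6 : (R n) ^ 2 ≤ (K : ℝ) ^ 2 := by
      exact pow_le_pow_left₀ h5.1 h5.2 2
    show (R n) ^ 2 / (n : ℝ) ≤ (K : ℝ) ^ 2 * (1 / (n : ℝ))
    rw [mul_one_div]
    exact div_le_div_of_nonneg_right h6 hn'.le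
  have h3' : 2 / √(J : ℝ) * QS P2 B 0 0 ≤ 28 / 128 * s0 := by
    calc 2 / √(J : ℝ) * QS P2 B 0 0 ≤ 2 / √(J : ℝ) * (C0 * (K ^ 2 * s0)) :=
          mul_le_mul_of_nonneg_left h3 (by positivity)
      _ = 2 / √(J : ℝ) * (C0 * (K : ℝ) ^ 2) * s0 := by ring
      _ ≤ 28 / 128 * s0 := mul_le_mul_of_nonneg_right hsmall hs0nn
  -- (4)
  have h4 : LK B J ≤ 315 / 32 * (s1 - s2) + CU := by
    have := hU B N hBsub hrepK
    have e : ∑ n ∈ Icc 1 (2 * N), ((rep B n : ℝ) ^ 2 - M B J n ^ 2) / n = s1 - s2 := by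
      rw [hs1, hs2, ← sum_sub_distrib]
      refine sum_congr rfl fun n _ => ?_
      rw [sub_div]
      rfl
    rw [e] at this
    exact this
  -- (5)
  have h5 := hA B N hBsub hrepK
  have h6 := hB R L hRK hR0
  have h7 := hC W L hWK
  have h8 := hD (fun n => W n - 7 / 2) L (fun n => by
    have := hWK n
    rw [abs_le]
    constructor
    · have hK0 : (0 : ℝ) ≤ K := Nat.cast_nonneg K
      linarith [this.1]
    · linarith [this.2])
  rw [hTeq] at h8
  have h9 : ∑ n ∈ Icc 1 (2 * N), ∑ m ∈ Icc 1 (2 * N), (rep B n : ℝ) * rep B m * kap n m ≤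
      1 / 2 * (s2 - 7 * s4 + 49 / 4 * s0) + CD + CC + CB := by
    have h6' : ∑ n ∈ Icc 1 L, ∑ m ∈ Icc 1 L, R n * R m * kap n m ≤
      ∑ n ∈ Icc 1 L, ∑ m ∈ Icc 1 L, W n * W m * kap n m + CB := h6
    have : ∑ n ∈ Icc 1 L, ∑ m ∈ Icc 1 L, R n * R m * kap n m ≤
      1 / 2 * (s2 - 7 * s4 + 49 / 4 * s0) + CD + CC + CB := by linarith
    exact this
  -- (8)
  have h10 := abs_le.1 (hM R L hRK hR0)
  have h10' : -CM ≤ s4 - s3 ∧ s4 - s3 ≤ CM := h10
  -- (7)
  have h11 : s1 - 8 * s3 + 12 * s0 ≤ CT * S + CT := by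
    refine le_trans (le_of_eq ?_) hT2
    rw [hs1, hs3, hs0, mul_sum, mul_sum, ← sum_sub_distrib, ← sum_add_distrib]
    refine sum_congr rfl fun n hn => ?_
    have := hpos n hn
    simp only [hR]
    field_simp
    ring
  -- pointwise
  have h12 : 2495 * s4 - 372 * s2 ≤ 4184 * s0 := by
    rw [hs2, hs4, hs0, mul_sum, mul_sum, mul_sum, ← sum_sub_distrib]
    refine sum_le_sum fun n hn => ?_
    have hn' := hpos n hn
    have : 2495 * (W n / n) - 372 * (W n ^ 2 / n) = (2495 * W n - 372 * W n ^ 2) / n := by ring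
    rw [this, mul_one_div]
    apply div_le_div_of_nonneg_right _ hn'.le
    nlinarith [sq_nonneg (W n - 2495 / 744)]
  -- lower bound for s0
  have h13 : Real.log N ≤ s0 := by
    have h14 : Real.log (N : ℝ) ≤ Real.log ((2 * N : ℕ) + 1 : ℝ) := by
      apply Real.log_le_log
      · exact_mod_cast hN
      · push_cast
        have : (1 : ℝ) ≤ N := by exact_mod_cast hN
        linarith
    have h15 := log_add_one_le_harmonic (2 * N)
    have h16 : ((harmonic (2 * N) : ℚ) : ℝ) = s0 := by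
      rw [harmonic_eq_sum_Icc, hs0]
      push_cast
      refine sum_congr rfl fun n _ => ?_
      rw [one_div]
    rw [h16] at h15
    push_cast at h14 h15
    exact h14.trans h15
  have hSnn : 0 ≤ S := sum_nonneg fun n _ => by positivity
  have hK0 : (0 : ℝ) ≤ K := Nat.cast_nonneg K
  have hZ := hT3
  -- combine
  have key : 30 * s0 ≤ c1 + c2 * S := by
    have hZ' : 10 * K * ∑ n ∈ (Icc 1 N).filter (fun n => rep B n = 0), 1 / (n : ℝ) ≤
        10 * K * (S + CT) := mul_le_mul_of_nonneg_left hZ (by positivity)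
    have e1 : VV B ≤ 3 / 5 * (1 / 2 * (s2 - 7 * s4 + 49 / 4 * s0) + CD + CC + CB) +
        10 * K * (S + CT) + CA := by
      have : 3 / 5 * ∑ n ∈ Icc 1 (2 * N), ∑ m ∈ Icc 1 (2 * N),
          (rep B n : ℝ) * rep B m * kap n m ≤
          3 / 5 * (1 / 2 * (s2 - 7 * s4 + 49 / 4 * s0) + CD + CC + CB) :=
        mul_le_mul_of_nonneg_left h9 (by norm_num)
      linarith
    have a1 := le_abs_self CD
    have a2 := le_abs_self CC
    have a3 := le_abs_self CB
    have a4 := le_abs_self CA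
    have a5 := le_abs_self CU
    have a6 := le_abs_self CT
    have a7 := le_abs_self CM
    have a8 : CT * S ≤ |CT| * S := mul_le_mul_of_nonneg_right a6 hSnn
    have a9 : K * CT ≤ K * |CT| := mul_le_mul_of_nonneg_left a6 hK0
    have a10 : s3 ≤ s4 + CM := by linarith [h10'.1]
    have b1 : 10 * K * (S + CT) = 10 * (K * S) + 10 * (K * CT) := by ring
    have b2 : c2 * S = 1260 * (|CT| * S) + 29600 * (K * S) + S := by rw [hc2]; ring
    rw [b1] at e1
    rw [b2, hc1]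
    have b3 : 29600 * (K : ℝ) * |CT| = 29600 * (K * |CT|) := by ring
    rw [b3]
    clear_value s0 s1 s2 s3 s4 S c1 c2
    linarith
  have : 30 * Real.log N ≤ c1 + c2 * S := by linarith
  rw [div_mul_eq_mul_div, div_sub_div_same, div_le_iff₀ hc2pos]
  linarith

/-- the corollary for asymptotic bases -/
theorem basis_of_main (h : Main_stmt) : Basis_stmt := by
  classical
  intro A ⟨n₀, h0⟩ n₁
  by_contra hcon
  push Not at hcon
  -- r A n ≤ max 7 (n₁ + 1)
  have hfin : ∀ n, r A n ≤ n + 1 := by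
    intro n
    have : {p : ℕ × ℕ | p.1 ∈ A ∧ p.2 ∈ A ∧ p.1 + p.2 = n} ⊆ (antidiagonal n : Finset (ℕ × ℕ)) := by
      intro p hp
      simp only [Set.mem_ofPred_eq] at hp
      simp [hp.2.2]
    calc r A n ≤ ((antidiagonal n : Finset (ℕ × ℕ)) : Set (ℕ × ℕ)).ncard :=
          Set.ncard_le_ncard this (finite_toSet _)
      _ = n + 1 := by rw [Set.ncard_coe_finset, Nat.card_antidiagonal]
  have hK : ∀ n, r A n ≤ n₁ + 8 := by
    intro n
    rcases lt_or_ge n n₁ with h1 | h1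
    · have := hfin n; omega
    · have := hcon n h1; omega
  obtain ⟨δ, hδ, C, hC⟩ := h (n₁ + 8)
  have hC := hC A hK
  set T := n₀ + n₁ with hT
  have hb : ∀ N : ℕ, ∑ n ∈ (Icc 1 N).filter (fun n => r A n = 0 ∨ 8 ≤ r A n), 1 / (n : ℝ) ≤ T := by
    intro N
    have hsub : (Icc 1 N).filter (fun n => r A n = 0 ∨ 8 ≤ r A n) ⊆ Icc 1 T := by
      intro n hn
      rw [mem_filter, mem_Icc] at hn
      rw [mem_Icc]
      refine ⟨hn.1.1, ?_⟩
      by_contra h2
      push Not at h2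
      have h3 := h0 n (by omega)
      have h4 := hcon n (by omega)
      omega
    calc ∑ n ∈ (Icc 1 N).filter (fun n => r A n = 0 ∨ 8 ≤ r A n), 1 / (n : ℝ)
        ≤ ∑ n ∈ Icc 1 T, 1 / (n : ℝ) :=
          sum_le_sum_of_subset_of_nonneg hsub fun _ _ _ => by positivity
      _ ≤ ∑ n ∈ Icc 1 T, (1 : ℝ) := by
          refine sum_le_sum fun n hn => ?_
          have : (1 : ℝ) ≤ n := by exact_mod_cast (mem_Icc.1 hn).1
          rw [div_le_one (by linarith)]
          exact this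
      _ = T := by simp
  have hlim : Filter.Tendsto (fun N : ℕ => δ * Real.log N - C) Filter.atTop Filter.atTop := by
    apply Filter.tendsto_atTop_add_const_right
    exact (Real.tendsto_log_atTop.comp tendsto_natCast_atTop_atTop).const_mul_atTop hδ
  obtain ⟨N, hN⟩ := (hlim.eventually_gt_atTop (T : ℝ)).and (Filter.eventually_ge_atTop 1) |>.exists
  have := hC N hN.2
  linarith [hb N, hN.1]

end Pool.Agent.W247.ET
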